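import Mathlib
import Pool.Agent.Helper77.Dens.Defs
import Pool.Agent.Helper77.Dens.AD

/-!
# MP_d97def_al, properties (a) and (d)

Every non-amenable group is the union of two disjoint sets whose `is12` is zero. Hence a
group with property (d), in particular a group with property (a), is amenable.
-/

namespace Pool.Agent.Results.MP_d97def_al.AD_Amenable

open Pool.Agent.Helper77.Dens

universe u

/-- A non-amenable group `G` splits into two disjoint sets with `is12` equal to `0`; in
particular it has neither property (d) nor property (a). -/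
theorem result (G : Type u) [Group G] (hG : ¬ Amenable G) :
    (∃ A : Set G, is12 A = 0 ∧ is12 Aᶜ = 0) ∧ ¬ PropD G ∧ ¬ PropA G := by
  obtain ⟨A, h1, h2⟩ := exists_null_partition G hG
  have hpart : IsPartition (![A, Aᶜ] : Fin 2 → Set G) := by
    refine ⟨fun i j hij => ?_, fun g => ?_⟩
    · fin_cases i <;> fin_cases j <;> simp_all [disjoint_compl_right, disjoint_compl_left]
    · by_cases hg : g ∈ A
      · exact ⟨0, hg⟩
      · exact ⟨1, hg⟩
  have hz : ∀ i : Fin 2, is12 ((![A, Aᶜ] : Fin 2 → Set G) i) = 0 := by
    intro i
    fin_cases i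
    · exact h1
    · exact h2
  refine ⟨⟨A, h1, h2⟩, fun hD => ?_, fun hA => ?_⟩
  · obtain ⟨i, hi⟩ := hD 2 (by norm_num) _ hpart
    rw [hz i] at hi
    exact lt_irrefl _ hi
  · obtain ⟨i, hi⟩ := hA 2 (by norm_num) _ hpart
    rw [hz i] at hi
    norm_num at hi

/-- Every group with property (d) is amenable. -/
theorem amenable_of_propD (G : Type u) [Group G] (h : PropD G) : Amenable G :=
  by_contra fun hG => (result G hG).2.1 h

/-- Every group with property (a) is amenable. -/
theorem amenable_of_propA (G : Type u) [Group G] (h : PropA G) : Amenable G :=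
  by_contra fun hG => (result G hG).2.2 h

end Pool.Agent.Results.MP_d97def_al.AD_Amenable
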