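import Mathlib
import Pool.Agent.Helper77.PB.Final

/-!
MP_d97def_al, X = b: partial results towards the implication (b) => amenable.
-/

namespace Pool.Agent.Results.MP_d97def_al.B_Restricted

open Pool.Agent.Helper77.Dens Pool.Agent.Helper77.PB

universe u

/-- (1) Every group with property (b) that is generated by its elements of infinite order is
amenable; (2) if `G × ℤ` has property (b), then `G` is amenable; (3) a group with property (b)
has, for every infinite `𝒦 ⊆ ℕ`, a measure invariant under all elements that have infinite order
or lie in finite subgroups of order `k` for all but finitely many `k ∈ 𝒦`; (4) a group with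
property (b) has an amenable normal subgroup `R` such that every nontrivial element of `G ⧸ R`
has finite order and the finite subgroups of `G ⧸ R` containing it have bounded order. -/
theorem result :
    (∀ (G : Type u) [Group G], Subgroup.closure {g : G | ¬ IsOfFinOrder g} = ⊤ →
      PropB G → Amenable G) ∧
    (∀ (G : Type u) [Group G], PropB (G × Multiplicative ℤ) → Amenable G) ∧
    (∀ (G : Type u) [Group G], PropB G → ∀ 𝒦 : Set ℕ, 𝒦.Infinite →
      ∃ μ : Measure G, ∀ g, KGood 𝒦 g → ∀ A, μ.val ((fun x => g * x) '' A) = μ.val A) ∧
    (∀ (G : Type u) [Group G], PropB G → ∃ R : Subgroup G, ∃ _ : R.Normal, Amenable R ∧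
      PropB (G ⧸ R) ∧ ∀ e : G ⧸ R, e ≠ 1 → IsOfFinOrder e ∧
        ∃ B : ℕ, ∀ T : Subgroup (G ⧸ R), e ∈ T → (T : Set (G ⧸ R)).Finite → Nat.card T ≤ B) := by
  refine ⟨?_, fun G _ => amenable_of_propB_prod, fun G _ => inv_measure_of_propB, ?_⟩
  · intro G _ hgen hG
    obtain ⟨μ, hμ⟩ := inv_measure_of_propB hG Set.univ Set.infinite_univ
    refine ⟨μ, fun g => ?_⟩
    have hg : g ∈ Subgroup.closure {g : G | ¬ IsOfFinOrder g} := by
      rw [hgen]
      exact Subgroup.mem_top g
    induction hg using Subgroup.closure_induction with
    | mem x hx => exact hμ x (Or.inl hx)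
    | one =>
      intro A
      simp
    | mul x y _ _ hx hy =>
      intro A
      have h3 : (fun z => x * y * z) '' A = (fun z => x * z) '' ((fun z => y * z) '' A) := by
        rw [Set.image_image]
        simp only [mul_assoc]
      rw [h3, hx, hy]
    | inv x _ hx =>
      intro A
      rw [← hx, Set.image_image]
      simp
  · intro G _ hG
    obtain ⟨R, hRn, hR, hrad⟩ := exists_radical G
    have hQ : PropB (G ⧸ R) :=
      PropB_of_surjective (QuotientGroup.mk' R) (QuotientGroup.mk'_surjective R) hG
    exact ⟨R, hRn, amenable_of_folnerIn R hR, hQ, fun e he => torsion_of_propB hQ hrad e he⟩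

end Pool.Agent.Results.MP_d97def_al.B_Restricted
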