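import Mathlib
import Pool.Agent.Helper77.Dens.Defs
import Pool.Agent.Helper77.PP.FreeInst
import Pool.Agent.Helper77.PP.Lift
import Pool.Agent.Helper77.PP.Powers
import Pool.Agent.Helper77.PP.Topol
import Pool.Agent.Helper78.PP.Main

/-!
# MP_d97def_al, property (c)

Property (c) fails for every group that has a subgroup of finite index which maps onto a countable
group satisfying the word condition `HasFree`: for every finite set `D` of coefficients there is an
element `g` such that no reduced word in `g` with coefficients in `D` is trivial.
The word condition holds for all Powers groups (de la Harpe), for all groups acting minimally and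
strongly faithfully on an infinite Hausdorff space with an element having north-south dynamics, and
for free groups of rank at least two.
-/

namespace Pool.Agent.Results.MP_d97def_al.C_WordCondition

open Pool.Agent.Helper77.Dens Pool.Agent.Helper77.PP Pool.Agent.Helper78.PP

universe u v w

theorem result :
    -- (1) if a subgroup `H` of finite index `m` of `G` maps onto a countable group with the word
    -- condition, then `G` has a partition into `4m` cells `A` with `cov (A A⁻¹) ≥ 5m` for each
    -- cell, and `G` lacks property (c)
    (∀ (G : Type u) [Group G] (H : Subgroup G) [H.FiniteIndex] (Q : Type v) [Group Q]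
      [Countable Q] (π : H →* Q), Function.Surjective π → HasFree Q →
      (∃ A : Fin (4 * H.index) → Set G, IsPartition A ∧
        ∀ i, ((5 * H.index : ℕ) : ℕ∞) ≤ cov (diffSet (A i))) ∧ ¬ PropC G) ∧
    -- (2) Powers groups satisfy the word condition
    (∀ (Q : Type v) [Group Q], IsPowers Q → HasFree Q) ∧
    -- (3) so do groups with a minimal, strongly faithful action by homeomorphisms on an infinite
    -- Hausdorff space for which some element has north-south dynamics
    (∀ (Q : Type v) [Group Q] (M : Type w) [TopologicalSpace M] [T2Space M] [Infinite M]
      [MulAction Q M], (∀ g : Q, Continuous fun x : M => g • x) →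
      (∀ x : M, Dense (MulAction.orbit Q x)) →
      (∀ D : Finset Q, ∃ y : M, ∀ d ∈ D, d ≠ 1 → d • y ≠ y) →
      (∃ (g : Q) (a r : M), a ≠ r ∧ ∀ U V : Set M, IsOpen U → IsOpen V → a ∈ U → r ∈ V →
        ∃ n : ℕ, ∀ x ∉ V, g ^ n • x ∈ U) → HasFree Q) ∧
    -- (4) so do free groups of rank at least two
    (∀ (α : Type v) [Nontrivial α], HasFree (FreeGroup α)) := by
  refine ⟨?_, ?_, ?_, ?_⟩
  · intro G _ H _ Q _ _ π hπ hQ
    obtain ⟨c, hc⟩ := exists_colouring Q hQ
    have main := lift_colouring H π hπ c hc
    exact ⟨main, not_propC_of_partition Subgroup.FiniteIndex.index_ne_zero main⟩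
  · intro Q _ hQ
    exact hQ.hasFree
  · intro Q _ M _ _ _ _ hcont hmin hfaith hg
    obtain ⟨g, a, r, har, hns⟩ := hg
    exact hasFree_of_northSouth hcont hmin hfaith g a r har hns
  · intro α _
    classical
    obtain ⟨a, b, hab⟩ := exists_pair_ne α
    exact hasFree_freeGroup a b hab

end Pool.Agent.Results.MP_d97def_al.C_WordCondition
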