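import Mathlib
import Pool.Agent.Helper77.Gap.Units

/-!
MP_d97def_al, X = e: there is a non-amenable group with property (e).
-/

namespace Pool.Agent.Results.MP_d97def_al.E_NotSufficient

open Pool.Agent.Helper77.Dens

/-- There is a non-amenable (countable) group `G` with property (e), even uniformly: there is a
function `Φ` such that every partition of `G` into `n ≥ 1` cells has a cell `A` with
`pack A ≤ Φ n`. -/
theorem result : ∃ (G : Type) (_ : Group G), ¬ Amenable G ∧ PropE G ∧ ∃ Φ : ℕ → ℕ,
    UniformPropE G Φ := by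
  obtain ⟨Φ, hΦ⟩ := Pool.Agent.Helper77.GS.uniform_propE_GSG
  exact ⟨Pool.Agent.Helper77.GS.GSG, inferInstance, Pool.Agent.Helper77.GS.not_amenable_GSG,
    hΦ.propE, Φ, hΦ⟩

end Pool.Agent.Results.MP_d97def_al.E_NotSufficient
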